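import Pool.Agent.H676.SC.Defs

set_option autoImplicit false

/-! # Circuits which are symmetric under some permutations of the vertices only -/

namespace Pool.Agent.H676.LC

open Pool.Agent.H676.SC

variable {V D L : Type}

/-- Every permutation in `S` extends to an automorphism of the circuit. -/
def SymmetricUnder (C : Circuit V D L) (S : Set (Equiv.Perm V)) : Prop :=
  ∀ σ ∈ S, ∃ π : Equiv.Perm C.Gate, π C.out = C.out ∧ ∀ g,
    C.read (π g) = (C.read g).map (Prod.map σ σ) ∧
    C.wires (π g) = (C.wires g).map (Prod.map id π) ∧ C.fn (π g) = C.fn g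

/-- The number of different relabelings of the wiring of the gate `g` by permutations in `S`. -/
noncomputable def numWiringsUnder (C : Circuit V D L) (S : Set (Equiv.Perm V)) (g : C.Gate) : ℕ :=
  Nat.card (C.wiring g '' S)

/-- The permutations of `X × B` which map every block `{x} × B` to itself by an even
permutation. -/
def blockEven (X B : Type) [Fintype B] [DecidableEq B] : Set (Equiv.Perm (X × B)) :=
  {σ | ∀ x, ∃ τ : Equiv.Perm B, Equiv.Perm.sign τ = 1 ∧ ∀ b, σ (x, b) = (x, τ b)}

end Pool.Agent.H676.LC
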