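import Pool.Agent.H676.ED.Stm
import Pool.Agent.H676.LC.Defs

set_option autoImplicit false
set_option linter.unusedSectionVars false

/-!
# Project LC: statements

Goal: for infinitely many `n` there are two nonisomorphic graphs `G`, `H` on `n` vertices (cliques
of size four joined as in the construction of Cai, Fürer and Immerman over a cubic expander) which
no circuit with fewer than `2^(c n)` gates distinguishes if it is symmetric under the even
permutations inside `n / 4` disjoint blocks of four vertices.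

`Fd d = Fin d → ZMod 2`, `dot`, `coef c Z x`, `tch Z` are in `ED/Stm.lean`; `Circuit`, `wiring`,
`value`, `output`, `bit` in `SC/Defs.lean`. Conventions: `G.comap σ` is the graph with
`Adj a b ↔ G.Adj (σ a) (σ b)`, so `(G.comap σ).comap ρ = G.comap (σ * ρ)`.

Each `S_X : Prop` has a complete proof on paper in its docstring.
-/

namespace Pool.Agent.H676.LC

open Finset Pool.Agent.H676.SC Pool.Agent.H676.ED

/-! ## Part 1: subgroups of small index of a power of a group -/

/-- Proof. We show `Nat.card K * 2 ^ i ≤ (Nat.card T) ^ (Fintype.card X)` with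
`i = {x | ¬ ∀ a ∈ N, Pi.mulSingle x a ∈ K}.ncard` (equivalent, as
`Nat.card K * K.index = Nat.card (X → T)`), by induction on `Fintype.card X`, for all types `X`.
Write `N_x = {Pi.mulSingle x a | a ∈ N}` and `I = {x | N_x ⊄ K}`. `X` empty: clear. For `x : X` let
`X' = {y // y ≠ x}`, `K_x ≤ (X' → T)` the group of the restrictions of the `k ∈ K` with `k x = 1`, and
`P ≤ T` the image of `K` under `k ↦ k x`; `Nat.card K = Nat.card P * Nat.card K_x` (kernel and range of
a homomorphism).
(A) If some `x ∉ I`: for `y ∈ I` (so `y ≠ x`), `N_y ⊄ K_x`; by induction for `K_x`,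
`card K * 2 ^ |I| = card P * card K_x * 2 ^ |I| ≤ card T * (card T) ^ (card X - 1)`.
(B) Otherwise `I = X`; let `x : X`. If `P ≠ T` then `2 * card P ≤ card T` (Lagrange) and, as in (A),
`card K * 2 ^ |X| ≤ (2 * card P) * (card K_x * 2 ^ (|X| - 1)) ≤ (card T) ^ |X|`.
(C) `I = X` and `P = T`. `M = {a : T | Pi.mulSingle x a ∈ K}` is a normal subgroup of `T` (for
`t : T` take `k ∈ K` with `k x = t`; then `k * mulSingle x a * k⁻¹ = mulSingle x (t a t⁻¹)`), and
it does not contain `N`, so `M = ⊥`. Thus the restriction `K → (X' → T)` is injective; let `K'` be its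
image, `card K' = card K`. Let `Y = {y : X' | N_y ⊆ K'}`. For `y ∈ Y`, `a ∈ N` there is exactly one
`φ a : T` with `mulSingle y a * mulSingle x (φ a) ∈ K`; `φ` is a homomorphism `N → T`, not trivial
(as `N_y ⊄ K`), and for all `k ∈ K`
  `φ (k y * a * (k y)⁻¹) = k x * φ a * (k x)⁻¹`   (1)
(conjugate by `k`; `N` is normal). As `k x` runs through all of `T` the image of `φ` is a nontrivial
normal subgroup, so it contains `N`; it has at most `card N` elements, so it is `N` and `φ` is an
injection of `N` onto `N`. Let `Z` be the centraliser of `N` in `T`; `Z ≠ ⊤` as `N` is not central. By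
(1), for `k ∈ K`: `k y ∈ Z ↔ k x ∈ Z`. So if `Y` is not empty, all elements `k'` of `K'` satisfy
`k' y ∈ Z ↔ k' y' ∈ Z` for all `y, y' ∈ Y`; more precisely the image `Q` of `K'` in `(Y → T)` satisfies
`card Q * 2 ^ (|Y| - 1) ≤ (card T) ^ |Y|`: for `k, l ∈ K` with `k x * (l x)⁻¹ ∈ Z` all
`k y * (l y)⁻¹ ∈ Z`, so `Q` is covered by at most `card (T / Z)` cosets of `Z ^ Y`, and
`card (T / Z) * (card Z) ^ |Y| * 2 ^ (|Y| - 1) ≤ (card T) ^ |Y|` as `2 ≤ card (T / Z)`,
`card T = card (T / Z) * card Z`. The kernel of `K' → (Y → T)`, restricted to `X' \ Y`, is a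
subgroup of `(X' \ Y → T)` which contains no `N_z`, so by induction it has at most
`(card T / 2) ^ (|X| - 1 - |Y|)` elements (in the form with `2 ^ ..` on the left). Altogether
`card K * 2 ^ (|Y| - 1) * 2 ^ (|X| - 1 - |Y|) ≤ (card T) ^ (|X| - 1)`, and
`2 ^ |X| = 4 * 2 ^ (|Y| - 1) * 2 ^ (|X| - 1 - |Y|)`, `4 ≤ card T` (not commutative). If `Y` is empty:
`card K * 2 ^ (|X| - 1) ≤ (card T) ^ (|X| - 1)` and `2 ≤ card T`. -/
def S_SUP : Prop :=
  ∀ (T : Type) [Group T] [Finite T] (N : Subgroup T), N.Normal → N ≠ ⊥ →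
    (∀ M : Subgroup T, M.Normal → M ≠ ⊥ → N ≤ M) → ¬ N ≤ Subgroup.center T →
    ∀ (X : Type) [Fintype X] [DecidableEq X] (K : Subgroup (X → T)),
      2 ^ {x | ¬ ∀ a ∈ N, Pi.mulSingle x a ∈ K}.ncard ≤ K.index

/-- translations of `Fd 2` are even -/
theorem sign_tr (v : Fd 2) : Equiv.Perm.sign (Equiv.addRight v : Equiv.Perm (Fd 2)) = 1 := by
  revert v
  decide

/-- the translation by `v` -/
def trA (v : Fd 2) : alternatingGroup (Fd 2) := ⟨Equiv.addRight v, sign_tr v⟩

/-- Proof (from `S_SUP`). `T = alternatingGroup (Fd 2)` (12 elements, isomorphic to the affine group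
of the field with four elements), `N` the subgroup of the translations `trA v`. `N` is normal, not
trivial and not central (a 3-cycle fixing `0` does not commute with the translations). A nontrivial
normal subgroup `M` contains some `g ≠ 1`. If `g` is a translation by `u ≠ 0`: its conjugates are all
three nontrivial translations. Otherwise `g a = A a + t` with a linear map `A ≠ 1` of order three
and the commutators `g * trA v * g⁻¹ * (trA v)⁻¹ = trA (A v - v)` are all translations. (All this
can be checked by `decide` on the 12 elements, or with `Mathlib`'s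
`GroupTheory/SpecificGroups/Alternating/KleinFour.lean`.) -/
def S_BLK : Prop :=
  ∀ (X : Type) [Fintype X] [DecidableEq X] (K : Subgroup (X → alternatingGroup (Fd 2))),
    2 ^ {x | ∃ v : Fd 2, Pi.mulSingle x (trA v) ∉ K}.ncard ≤ K.index

/-! ## Part 2: circuits -/

/-- a family of even permutations of the blocks -/
def bpA {X : Type} (p : X → alternatingGroup (Fd 2)) : Equiv.Perm (X × Fd 2) :=
  Equiv.prodCongrRight fun x => (p x : Equiv.Perm (Fd 2))

/-- a family of translations -/
def shf {X : Type} (p : X → Fd 2) : Equiv.Perm (X × Fd 2) :=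
  Equiv.prodCongrRight fun x => Equiv.addRight (p x)

/-- Proof. As `S_IDX` (`Pool/Agent/H553/SC_IDX.lean`, in the pack as `SC/TIdx.lean`): `bpA` is a
homomorphism (`bpA (p * q) = bpA p * bpA q`), `K = {p | C.wiring g (bpA p) = C.wiring g 1}` is a
subgroup and `p ↦ C.wiring g (bpA p)` gives an injection from the left cosets of `K` to
`C.wiring g '' blockEven X (Fd 2)` (all `bpA p` are in `blockEven`). Injective maps to a set which is
finite (there are finitely many permutations) give `K.index ≤ Nat.card _`. -/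
def S_IDX2 : Prop :=
  ∀ (X D L : Type) [Fintype X] (C : Circuit (X × Fd 2) D L) (g : C.Gate),
    ∃ K : Subgroup (X → alternatingGroup (Fd 2)),
      K.index ≤ numWiringsUnder C (blockEven X (Fd 2)) g ∧
      ∀ p ∈ K, C.wiring g (bpA p) = C.wiring g 1

/-- Proof. As `S_SYM` (`Pool/Agent/H898/...`, in the pack as `SC/TSym.lean`), the same proof for
the permutations in `S`. -/
def S_SYM2 : Prop :=
  ∀ (V D L : Type) [Fintype V] (C : Circuit V D L) (S : Set (Equiv.Perm V)), SymmetricUnder C S →
    (∀ g, numWiringsUnder C S g ≤ C.size) ∧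
    ∀ (G : SimpleGraph V) (σ : Equiv.Perm V), σ ∈ S → C.output (G.comap σ) = C.output G

/-- Proof. By symmetry show `u.1 ∈ I`. Suppose not. Let `x = u.1`. Choose `w : Fd 2`, `w ≠ 0`, and, if
`v.1 = x`, also `w ≠ u.2 + v.2` (there are three nonzero vectors). Let `p = Pi.single x w`, `ρ = shf p`;
`p` vanishes on `I`, so `C.wiring g ρ = C.wiring g 1`, whose first components give
`bit (G.comap ρ) (u, v) = bit G (u, v)` for all `G`. Take the graph `G` with the only edge
`{u, v}`: the right side is `true`. The left side is `G.Adj (ρ u) (ρ v)`, with `ρ u = (x, u.2 + w)`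
different from `u`; if `v.1 ≠ x` then `ρ v = v`, and `{ρ u, v} ≠ {u, v}`; if `v.1 = x` then
`ρ u ≠ u` and `ρ u ≠ v`, so `{ρ u, ρ v} ≠ {u, v}`. So it is `false`. -/
def S_READ2 : Prop :=
  ∀ (X D L : Type) [DecidableEq X] (C : Circuit (X × Fd 2) D L) (g : C.Gate) (I : Finset X),
    (∀ p : X → Fd 2, (∀ x ∈ I, p x = 0) → C.wiring g (shf p) = C.wiring g 1) →
    ∀ u v, C.read g = some (u, v) → u ≠ v → u.1 ∈ I ∧ v.1 ∈ I

/-- The main induction. `good t A` means that the translations `t x` of the blocks `x ∈ A` are a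
consistent position.

Proof (from `S_READ2`; compare `S_GEN`, in the pack as `SC/TGen.lean`, which is more complicated).
Induction on `C.rank g`, for all `p`, `q`, `t`. Use
`C.value A g = C.fn g (inp C A g).1 (inp C A g).2` (`inp` in `SC/Stm.lean`).
First component of `inp`: if `C.read g = some (u, v)` and `u ≠ v` then `u.1, v.1 ∈ I g` by
`S_READ2`; `(G.comap (shf p)).Adj u v` is `G.Adj (shf p u) (shf p v)`, which is equivalent to
`H.Adj (shf t (shf p u)) (shf t (shf p v))` by the fifth hypothesis on `good`, and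
`shf t (shf p u) = shf q u` as `q x = p x + t x` for `x ∈ I g`. (`u = v`: both bits are `false`.)
Second component: compare for every `c = (l, d)` the multiplicities `N_G (p)`, `N_H (q)` of `c` in
`(C.wires g).map fun e => (e.1, C.value (G.comap (shf p)) e.2)`. Let
`X' = {p' | ∀ x ∈ I g, p' x = p x}`, `Y' = {q' | ∀ x ∈ I g, q' x = q x}` (finite sets of functions
`X → Fd 2`, of the same size, not empty). `N_G` is constant on `X'`: `p' - p` vanishes on `I g`,
`shf p' = shf p * shf (p' - p)`, so evaluating the functions in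
`C.wiring g (shf (p' - p)) = C.wiring g 1` at `G.comap (shf p)` gives `N_G (p') = N_G (p)`. In the same
way `N_H` is constant on `Y'`. So
`|X'| * N_G (p) = ∑_{e ∈ wires g, e.1 = l} #{p' ∈ X' | value (G.comap (shf p')) e.2 = d}` and the same
for `H`. Fix `e` and let `J = I e.2`. By repeated extension (induction over the finset `J`; at
every step the set has fewer than `K` elements or nothing is to be done, as
`(I g ∪ J).card ≤ K`) there is `t'` with `t' x = t x` for `x ∈ I g` and `good t' (I g ∪ J)`. The map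
`p' ↦ q'`, `q' x = p' x + t' x`, is a bijection from `X'` to `Y'` (on `I g`: `p x + t x = q x`), and by
the induction hypothesis for `e.2` (`good t' J` by monotonicity),
`value (G.comap (shf p')) e.2 = value (H.comap (shf q')) e.2`. So the numbers agree. -/
def S_LOC : Prop :=
  ∀ (X D L : Type) [Fintype X] [DecidableEq X] (C : Circuit (X × Fd 2) D L) (K : ℕ)
    (G H : SimpleGraph (X × Fd 2)) (good : (X → Fd 2) → Finset X → Prop),
    (∀ t A B, B ⊆ A → good t A → good t B) →
    (∀ t t' A, (∀ x ∈ A, t x = t' x) → good t A → good t' A) →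
    (∀ t A z, good t A → A.card < K → ∃ t' : X → Fd 2, (∀ x ∈ A, t' x = t x) ∧
      good t' (insert z A)) →
    (∀ t A, good t A → A.card ≤ K → ∀ u v : X × Fd 2, u.1 ∈ A → v.1 ∈ A →
      (G.Adj u v ↔ H.Adj (shf t u) (shf t v))) →
    ∀ I : C.Gate → Finset X, (∀ g, 2 * (I g).card ≤ K ∧
      ∀ p : X → Fd 2, (∀ x ∈ I g, p x = 0) → C.wiring g (shf p) = C.wiring g 1) →
    ∀ (g : C.Gate) (p q t : X → Fd 2), good t (I g) → (∀ x ∈ I g, q x = p x + t x) →
      C.value (G.comap (shf p)) g = C.value (H.comap (shf q)) g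

/-! ## Part 3: the graphs -/

section

variable {F : ℕ}

/-- The graph: blocks are cliques, and blocks which are adjacent in `E` are joined by one linear
equation with right-hand side `s`. -/
def CG (E : SimpleGraph (Fin F)) (c : Fin F → Fin F → Fd 2) (s : Sym2 (Fin F) → ZMod 2) :
    SimpleGraph (Fin F × Fd 2) where
  Adj u v := (u.1 = v.1 ∧ u.2 ≠ v.2) ∨
    (E.Adj u.1 v.1 ∧ dot (c u.1 v.1) u.2 + dot (c v.1 u.1) v.2 = s s(u.1, v.1))
  symm := ⟨fun u v h => h.elim (fun h => Or.inl ⟨h.1.symm, h.2.symm⟩)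
    fun h => Or.inr ⟨h.1.symm, by rw [Sym2.eq_swap, add_comm]; exact h.2⟩⟩
  loopless := ⟨fun u h => h.elim (fun h => h.2 rfl) fun h => E.loopless.irrefl u.1 h.1⟩

/-- there are three neighbours, one for every nonzero vector -/
def LocBij (E : SimpleGraph (Fin F)) (c : Fin F → Fin F → Fd 2) : Prop :=
  (∀ u v, E.Adj u v → c u v ≠ 0) ∧ ∀ (u : Fin F) (w : Fd 2), w ≠ 0 → ∃! v, E.Adj u v ∧ c u v = w

/-- no triangles -/
def TriFree (E : SimpleGraph (Fin F)) : Prop := ∀ u v w, E.Adj u v → E.Adj v w → ¬ E.Adj u w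

/-- in the sum of equations which touch at most `r` variables at most four fifths of them cancel -/
def NiceW (E : SimpleGraph (Fin F)) (c : Fin F → Fin F → Fd 2) (r : ℕ) : Prop :=
  ∀ Z : Finset (Sym2 (Fin F)), (∀ e ∈ Z, e ∈ E.edgeSet) → (tch Z).card ≤ r →
    5 * ((tch Z).filter fun x => coef c Z x = 0).card ≤ 4 * (tch Z).card

/-- Consistent positions.

Proof. As `S_GAME` (`Pool/Agent/H115/ED_GAME.lean`, in the pack as `ED/TGame.lean`); take
`good t A := Good E c r b A t` from that file (the equations from sets `Z` with `(tch Z).card ≤ r` and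
`coef c Z x = 0` outside `A` hold). Only `good_empty` and `zz_symm` use `NiceX`: for `Z ∈ ZZ A` with `m`
cancelled variables, `5 m ≤ 4 card (tch Z) ≤ 4 (m + card A)`, so `m ≤ 4 card A`; for
`card A ≤ K` the symmetric difference of two such sets touches at most
`card A + m₁ + m₂ ≤ 9 K ≤ r` variables. For `A = ∅`: `5 card (tch Z) ≤ 4 card (tch Z)`, so
`Z = ∅`. In the third property, if `z ∈ A` take `t' = t`; otherwise `Function.update t z w` from
`extend`. -/
def S_GOOD : Prop :=
  ∀ (F r K : ℕ) (E : SimpleGraph (Fin F)) (c : Fin F → Fin F → Fd 2), NiceW E c r → 9 * K ≤ r →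
    2 ≤ r → ∀ b : Sym2 (Fin F) → ZMod 2, ∃ good : (Fin F → Fd 2) → Finset (Fin F) → Prop,
      (∀ t, good t ∅) ∧
      (∀ t A B, B ⊆ A → good t A → good t B) ∧
      (∀ t t' A, (∀ x ∈ A, t x = t' x) → good t A → good t' A) ∧
      (∀ t A z, good t A → A.card < K → ∃ t' : Fin F → Fd 2, (∀ x ∈ A, t' x = t x) ∧
        good t' (insert z A)) ∧
      ∀ t A, good t A → ∀ x ∈ A, ∀ y ∈ A, E.Adj x y →
        dot (c x y) (t x) + dot (c y x) (t y) = b s(x, y)

/-- Isomorphisms preserve the blocks.

Proof. Let `u = (x, a)`, `v = (y, b)` be adjacent in `CG E c s`. If `x = y`: there is a nonzero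
`w` with `dot w a = dot w b` (take `w` with `dot w (a + b) = 0`), and by `LocBij` a neighbour `z` of
`x` with `c x z = w`; the common neighbours of `u`, `v` include the two other vertices of the block and
at least one vertex `(z, e)` (`c z x ≠ 0`, so `dot (c z x) e` takes the required value): at least
three. If `x ≠ y` then `E.Adj x y`, and a common neighbour `(z, e)` has `z = x`, `e ≠ a`,
`dot (c x y) e = dot (c x y) a`: exactly one vertex, as `c x y ≠ 0`; or `z = y` and in the same way at
most one vertex; or `z ≠ x, y` and then `x`, `y`, `z` would be a triangle of `E`. So at most two. As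
the isomorphism `φ` preserves adjacency and the number of common neighbours, it and its inverse
map vertices of one block to vertices of one block; this defines `α` and `τ`. -/
def S_BLKP : Prop :=
  ∀ (F : ℕ) (E : SimpleGraph (Fin F)) (c : Fin F → Fin F → Fd 2), LocBij E c → TriFree E →
    ∀ (s s' : Sym2 (Fin F) → ZMod 2) (φ : CG E c s ≃g CG E c s'),
      ∃ (α : Equiv.Perm (Fin F)) (τ : Fin F → Equiv.Perm (Fd 2)), ∀ x a, φ (x, a) = (α x, τ x a)

open Classical in
/-- The parity of `s` is an invariant.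

Proof. `α` is an automorphism of `E`: for `x ≠ y`, `E.Adj x y` iff some `(x, a)`, `(y, b)` are
adjacent in `CG E c s` (`c x y ≠ 0`). For `E.Adj x y` put `w = c x y`, `w' = c (α x) (α y)`. For all
`a`, `b`: `dot w a + dot (c y x) b = s s(x, y)` iff
`dot w' (τ x a) + dot (c (α y) (α x)) (τ y b) = s' s(α x, α y)`; elements of `ZMod 2` being `0` or
`1`, `dot w a + dot (c y x) b + s s(x, y) =
dot w' (τ x a) + dot (c (α y) (α x)) (τ y b) + s' s(α x, α y)`. So
`κ x y := dot w' (τ x a) + dot w a` does not depend on `a` (it equals an expression in `b`), and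
`κ x y + κ y x = s s(x, y) + s' s(α x, α y)`. For fixed `x` the sum over the neighbours `y` of `x` of
`c x y` is the sum of the three nonzero vectors, which is `0`, and the same for `c (α x) (α y)` (as
`α y` runs through the neighbours of `α x`); so `∑ y, κ x y = 0` (sum over the neighbours, `a`
fixed). Summing over all `x` and pairing `(x, y)` with `(y, x)`:
`∑ e ∈ E, (s e + s' (α e)) = 0`, and `α` permutes the edges. -/
def S_PAR : Prop :=
  ∀ (F : ℕ) (E : SimpleGraph (Fin F)) (c : Fin F → Fin F → Fd 2), LocBij E c →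
    ∀ (s s' : Sym2 (Fin F) → ZMod 2) (φ : CG E c s ≃g CG E c s')
      (α : Equiv.Perm (Fin F)) (τ : Fin F → Equiv.Perm (Fd 2)),
      (∀ x a, φ (x, a) = (α x, τ x a)) →
      ∑ e ∈ univ.filter (fun e => e ∈ E.edgeSet), s e =
        ∑ e ∈ univ.filter (fun e => e ∈ E.edgeSet), s' e

/-! ## Part 4: a cubic expander -/

open Classical in
/-- Random lifts of `K_{3,3}` expand.

Proof. `C = 10 ^ 10`. Let `A` have `a` elements, `C a ≤ N`, and let `N(A)` be the set of the
`(j, π i j x)`, `(i, x) ∈ A`. If `A` is not empty `N(A)` has at least three elements, so the claim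
holds for `a ≤ 2`. Let `a ≥ 3` and count the `π` (among all `(N !) ^ 9` functions
`Fin 3 → Fin 3 → Perm (Fin N)`) for which `2 |N(A)| < 3 a` for some such `A`: then
`N(A) ⊆ B` for some `B` with exactly `b = 3 a / 2` (rounded down) elements. For given `A`, `B` let
`A_i`, `B_j` be the parts; the number of `σ : Perm (Fin N)` with `σ (A_i) ⊆ B_j` is at most
`N ! (b / N) ^ |A_i|` (`|B_j| (|B_j| - 1) ⋯ / (N (N - 1) ⋯) ≤ (|B_j| / N) ^ |A_i|`), so the number of
`π` is at most `(N !) ^ 9 (b / N) ^ (3 a)`. With `(3 N).choose a ≤ (9 N / a) ^ a`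
(`a ! ≥ (a / 3) ^ a`), `(3 N).choose b ≤ (9 N / b) ^ b` and `3 a ≥ 2 b`, `b ≤ N`, the fraction of bad
`π` for fixed `a` is at most
`(9 N / a) ^ a (9 N / b) ^ b (b / N) ^ (2 b) = (9 N / a) ^ a (9 b / N) ^ b ≤
(81 * 3 / 2) ^ a (9 b / N) ^ (b - a)`, and `3 (b - a) ≥ a`, `9 b / N ≤ 27 / (2 C)`, so its cube is at
most `(122 ^ 3 * 27 / (2 C)) ^ a ≤ (4 ^ (- 3)) ^ a`. The sum over `a ≥ 3` of `4 ^ (- a)` is less than
`1 / 2`. The second claim is the first for the inverse permutations (`i` and `j` exchanged), which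
are also equidistributed; so some `π` satisfies both. -/
def S_EXP : Prop :=
  ∃ C : ℕ, 1 ≤ C ∧ ∀ N : ℕ, ∃ π : Fin 3 → Fin 3 → Equiv.Perm (Fin N),
    (∀ A : Finset (Fin 3 × Fin N), C * A.card ≤ N →
      3 * A.card ≤ 2 * (univ.filter fun z : Fin 3 × Fin N =>
        ∃ y ∈ A, π y.1 z.1 y.2 = z.2).card) ∧
    ∀ A : Finset (Fin 3 × Fin N), C * A.card ≤ N →
      3 * A.card ≤ 2 * (univ.filter fun z : Fin 3 × Fin N =>
        ∃ y ∈ A, π z.1 y.1 z.2 = y.2).card

/-- Proof (from `S_EXP`). Let `X = (Fin 3 × Fin N) ⊕ (Fin 3 × Fin N)`, with `inl (i, x)` adjacent to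
`inr (j, y)` iff `π i j x = y`, and `c (inl (i, x)) (inr (j, y)) = c (inr (j, y)) (inl (i, x)) =
γ (i + j)` where `γ 0, γ 1, γ 2` are the three nonzero vectors; `X ≃ Fin (6 * N)`. The neighbours of
`inl (i, x)` are the `inr (j, π i j x)`, and `i + j` takes every value once; so `LocBij`. The graph
is bipartite, so there are no triangles. `NiceW`: let `Z` be a set of edges, `(tch Z).card ≤ r`,
`C * r ≤ N`, `M` the set of the touched `x` with `coef c Z x = 0`. As the sum of one or of two of the
three vectors is not `0`, all three edges at `x ∈ M` are in `Z`, so the neighbours of `M` are touched.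
Let `M = M₁ ∪ M₂` (left and right part), say `|M₂| ≤ |M₁|`. By the expansion
`|tch Z| ≥ |M₁| + |N(M₁)| ≥ (5 / 2) |M₁| ≥ (5 / 4) |M|`. -/
def S_BASE : Prop :=
  ∃ C : ℕ, 1 ≤ C ∧ ∀ N : ℕ, ∃ (E : SimpleGraph (Fin (6 * N))) (c : Fin (6 * N) → Fin (6 * N) → Fd 2),
    LocBij E c ∧ TriFree E ∧ ∀ r : ℕ, C * r ≤ N → NiceW E c r

end

end Pool.Agent.H676.LC
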